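import Mathlib

set_option autoImplicit false

namespace Pool.Agent.Helper288.PQ

open Polynomial

/-- the polynomial with the base `q` digits of `v` as coefficients -/
noncomputable def dig (q K v : ℕ) : (ZMod q)[X] :=
  ∑ i ∈ Finset.range K, C ((v / q ^ i : ℕ) : ZMod q) * X ^ i

lemma dig_coeff (q K v i : ℕ) (hi : i < K) : (dig q K v).coeff i = ((v / q ^ i : ℕ) : ZMod q) := by
  unfold dig
  rw [finsetSum_coeff]
  simp only [coeff_C_mul, coeff_X_pow]
  rw [Finset.sum_eq_single i]
  · simp
  · intro j _ hj
    simp [Ne.symm hj]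
  · intro h
    exact absurd (Finset.mem_range.2 hi) h

lemma dig_degree (q K v : ℕ) : (dig q K v).degree < K := by
  rw [degree_lt_iff_coeff_zero]
  intro m hm
  unfold dig
  rw [finsetSum_coeff]
  refine Finset.sum_eq_zero ?_
  intro i hi
  rw [Finset.mem_range] at hi
  rw [coeff_C_mul, coeff_X_pow, if_neg (by omega), mul_zero]

lemma digits_inj (q K : ℕ) (hq : 0 < q) (a b : ℕ) (ha : a < q ^ K) (hb : b < q ^ K)
    (h : ∀ i, i < K → ((a / q ^ i : ℕ) : ZMod q) = ((b / q ^ i : ℕ) : ZMod q)) : a = b := by
  induction K generalizing a b with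
  | zero => simp at ha hb; omega
  | succ K ih =>
    have h0 := h 0 (by omega)
    simp only [pow_zero, Nat.div_one] at h0
    rw [ZMod.natCast_eq_natCast_iff] at h0
    have h1 : a / q = b / q := by
      apply ih
      · rw [Nat.div_lt_iff_lt_mul hq]; rw [pow_succ] at ha; exact ha
      · rw [Nat.div_lt_iff_lt_mul hq]; rw [pow_succ] at hb; exact hb
      · intro i hi
        have := h (i + 1) (by omega)
        rw [pow_succ', ← Nat.div_div_eq_div_mul, ← Nat.div_div_eq_div_mul] at this
        exact this
    have h2 := Nat.div_add_mod a q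
    have h3 := Nat.div_add_mod b q
    have h4 : a % q = b % q := h0
    rw [h1, h4] at h2
    omega

/-- A Reed-Solomon family of hash functions. -/
theorem hash (q K : ℕ) (hq : q.Prime) (hK : 0 < K) (T : Type) [Fintype T] [DecidableEq T]
    (hT : Fintype.card T ≤ q) :
    ∃ S : T → ℕ → Fin q, ∀ a b : ℕ, a < q ^ K → b < q ^ K → a ≠ b →
      (Finset.univ.filter (fun t => S t a = S t b)).card ≤ K - 1 := by
  classical
  have : Fact q.Prime := ⟨hq⟩
  have : NeZero q := ⟨hq.ne_zero⟩
  obtain ⟨f⟩ : Nonempty (T ↪ ZMod q) := by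
    apply Function.Embedding.nonempty_of_card_le
    rw [ZMod.card]; exact hT
  obtain ⟨g⟩ : Nonempty (ZMod q ≃ Fin q) := by
    rw [← Fintype.card_eq, ZMod.card, Fintype.card_fin]
  refine ⟨fun t v => g ((dig q K v).eval (f t)), ?_⟩
  intro a b ha hb hab
  have hne : dig q K a - dig q K b ≠ 0 := by
    intro h0
    apply hab
    apply digits_inj q K hq.pos a b ha hb
    intro i hi
    have h1 := congrArg (fun p : (ZMod q)[X] => p.coeff i) h0
    simp only [coeff_sub, coeff_zero, dig_coeff q K _ i hi] at h1
    exact sub_eq_zero.mp h1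
  have hdeg : (dig q K a - dig q K b).natDegree ≤ K - 1 := by
    have h1 : (dig q K a - dig q K b).degree < K :=
      lt_of_le_of_lt (degree_sub_le _ _) (max_lt (dig_degree q K a) (dig_degree q K b))
    rw [natDegree_le_iff_degree_le]
    have h2 := degree_eq_natDegree hne
    rw [h2] at h1 ⊢
    have h3 : (dig q K a - dig q K b).natDegree < K := by exact_mod_cast h1
    exact_mod_cast (by omega : (dig q K a - dig q K b).natDegree ≤ K - 1)
  refine le_trans ?_ hdeg
  refine le_trans ?_ (card_roots' _)
  refine le_trans ?_ (Multiset.toFinset_card_le _)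
  refine Finset.card_le_card_of_injOn f ?_ f.injective.injOn
  intro t ht
  rw [Finset.mem_coe, Finset.mem_filter] at ht
  rw [Finset.mem_coe, Multiset.mem_toFinset, mem_roots hne, IsRoot.def, eval_sub]
  have := g.injective ht.2
  rw [this, sub_self]

end Pool.Agent.Helper288.PQ
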