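import Mathlib

set_option autoImplicit false

namespace Pool.Agent.Helper288.PQ

/-- the least `k` such that `x` and `y` have the same binary digits from place `k` on -/
noncomputable def lev (x y : ℕ) : ℕ := sInf {k | x / 2 ^ k = y / 2 ^ k}

lemma lev_nonempty (x y : ℕ) : {k | x / 2 ^ k = y / 2 ^ k}.Nonempty := by
  refine ⟨x + y, ?_⟩
  have h1 : x < 2 ^ (x + y) := lt_of_lt_of_le Nat.lt_two_pow_self
    (Nat.pow_le_pow_right (by norm_num) (by omega))
  have h2 : y < 2 ^ (x + y) := lt_of_lt_of_le Nat.lt_two_pow_self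
    (Nat.pow_le_pow_right (by norm_num) (by omega))
  show x / 2 ^ (x + y) = y / 2 ^ (x + y)
  rw [Nat.div_eq_of_lt h1, Nat.div_eq_of_lt h2]

lemma lev_spec (x y : ℕ) : x / 2 ^ lev x y = y / 2 ^ lev x y :=
  Nat.sInf_mem (lev_nonempty x y)

lemma lev_le {x y k : ℕ} (h : x / 2 ^ k = y / 2 ^ k) : lev x y ≤ k := Nat.sInf_le h

lemma lev_min {x y k : ℕ} (h : k < lev x y) : x / 2 ^ k ≠ y / 2 ^ k :=
  fun h' => absurd (lev_le h') (by omega)

lemma lev_ge {x y k : ℕ} (h : lev x y ≤ k) : x / 2 ^ k = y / 2 ^ k := by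
  obtain ⟨i, rfl⟩ : ∃ i, k = lev x y + i := ⟨k - lev x y, by omega⟩
  rw [pow_add, ← Nat.div_div_eq_div_mul, ← Nat.div_div_eq_div_mul, lev_spec]

lemma lev_pos {x y : ℕ} (h : x ≠ y) : 0 < lev x y := by
  rw [Nat.pos_iff_ne_zero]
  intro h0
  apply h
  have := lev_spec x y
  rw [h0] at this
  simpa using this

lemma lev_le_of_lt {x y l : ℕ} (hx : x < 2 ^ l) (hy : y < 2 ^ l) : lev x y ≤ l := by
  apply lev_le
  rw [Nat.div_eq_of_lt hx, Nat.div_eq_of_lt hy]

lemma lev_bit {x y : ℕ} (h : x ≠ y) :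
    x.testBit (lev x y - 1) ≠ y.testBit (lev x y - 1) := by
  have h0 := lev_pos h
  obtain ⟨k, hk⟩ : ∃ k, lev x y = k + 1 := ⟨lev x y - 1, by omega⟩
  have h1 : x / 2 ^ k ≠ y / 2 ^ k := lev_min (by omega)
  have h2 := lev_spec x y
  rw [hk, pow_succ, ← Nat.div_div_eq_div_mul, ← Nat.div_div_eq_div_mul] at h2
  rw [hk, Nat.add_sub_cancel, Nat.testBit_eq_decide_div_mod_eq, Nat.testBit_eq_decide_div_mod_eq]
  intro hcon
  have h3 : (x / 2 ^ k % 2 = 1) ↔ (y / 2 ^ k % 2 = 1) := by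
    simpa using hcon
  omega

lemma lev_max {x y z : ℕ} (h1 : x ≤ y) (h2 : y ≤ z) :
    lev x z = max (lev x y) (lev y z) := by
  apply le_antisymm
  · apply lev_le
    rw [lev_ge (le_max_left (lev x y) (lev y z)), lev_ge (le_max_right (lev x y) (lev y z))]
  · have h3 := lev_spec x z
    have h4 : x / 2 ^ lev x z ≤ y / 2 ^ lev x z := Nat.div_le_div_right h1
    have h5 : y / 2 ^ lev x z ≤ z / 2 ^ lev x z := Nat.div_le_div_right h2
    exact max_le (lev_le (by omega)) (lev_le (by omega))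

lemma lev_ne {x y z : ℕ} (h1 : x < y) (h2 : y < z) : lev x y ≠ lev y z := by
  intro h
  have h0 := lev_pos h1.ne
  obtain ⟨k, hk⟩ : ∃ k, lev x y = k + 1 := ⟨lev x y - 1, by omega⟩
  have hk' : lev y z = k + 1 := by omega
  have a1 : x / 2 ^ k ≠ y / 2 ^ k := lev_min (by omega)
  have a2 : y / 2 ^ k ≠ z / 2 ^ k := lev_min (by omega)
  have a3 : x / 2 ^ k ≤ y / 2 ^ k := Nat.div_le_div_right h1.le
  have a4 : y / 2 ^ k ≤ z / 2 ^ k := Nat.div_le_div_right h2.le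
  have s1 := lev_spec x y
  have s2 := lev_spec y z
  rw [hk, pow_succ, ← Nat.div_div_eq_div_mul, ← Nat.div_div_eq_div_mul] at s1
  rw [hk', pow_succ, ← Nat.div_div_eq_div_mul, ← Nat.div_div_eq_div_mul] at s2
  omega

end Pool.Agent.Helper288.PQ
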