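import Mathlib
import Pool.Agent.Helper288.PQ.Lev
import Pool.Agent.Helper288.PQ.Hash

set_option autoImplicit false

namespace Pool.Agent.Helper288.PQ

open Finset

/-- replace the coordinate `j` -/
def upd {e l : ℕ} (t : Fin (e + 1) → Fin (l + 1)) (j : ℕ) (x : Fin (l + 1)) :
    Fin (e + 1) → Fin (l + 1) := fun i => if (i : ℕ) = j then x else t i

/-- put the coordinates up to `j` to zero -/
def zer {e l : ℕ} (j : ℕ) (t : Fin (e + 1) → Fin (l + 1)) :
    Fin (e + 1) → Fin (l + 1) := fun i => if (i : ℕ) ≤ j then 0 else t i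

/-- the bad sets -/
def bad {e l q : ℕ} (P : ℕ) (S : (Fin (e + 1) → Fin (l + 1)) → ℕ → Fin q) (p : ℕ × ℕ) :
    ℕ → Finset (Fin (e + 1) → Fin (l + 1))
  | 0 => univ.filter (fun t => S t p.1 = S t p.2)
  | j + 1 => univ.filter (fun t => (∀ i : Fin (e + 1), (i : ℕ) = j + 1 → t i = 0) ∧
      P < (univ.filter (fun x : Fin (l + 1) => upd t (j + 1) x ∈ bad P S p j)).card)

lemma bad_card {e l q : ℕ} (P : ℕ) (S : (Fin (e + 1) → Fin (l + 1)) → ℕ → Fin q) (p : ℕ × ℕ)
    (j : ℕ) (hj : j + 1 < e + 1) :
    (bad P S p (j + 1)).card * (P + 1) ≤ (bad P S p j).card := by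
  classical
  have key := Finset.card_mul_le_card_mul (s := bad P S p (j + 1)) (t := bad P S p j)
    (fun t u => ∃ x, u = upd t (j + 1) x) (m := P + 1) (n := 1) ?_ ?_
  · rwa [mul_one] at key
  · intro t ht
    rw [bad, Finset.mem_filter] at ht
    have h1 := ht.2.2
    refine le_trans h1 ?_
    refine Finset.card_le_card_of_injOn (fun x => upd t (j + 1) x) ?_ ?_
    · intro x hx
      rw [Finset.mem_coe, Finset.mem_filter] at hx
      rw [Finset.mem_coe, Finset.mem_bipartiteAbove]
      exact ⟨hx.2, x, rfl⟩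
    · intro x _ y _ hxy
      have := congrFun hxy ⟨j + 1, hj⟩
      simpa [upd] using this
  · intro u hu
    rw [Finset.card_le_one]
    intro t ht t' ht'
    rw [Finset.mem_bipartiteBelow, bad, Finset.mem_filter] at ht ht'
    obtain ⟨⟨-, h0, -⟩, x, hx⟩ := ht
    obtain ⟨⟨-, h0', -⟩, x', hx'⟩ := ht'
    funext i
    by_cases hi : (i : ℕ) = j + 1
    · rw [h0 i hi, h0' i hi]
    · have e1 := congrFun hx i
      have e2 := congrFun hx' i
      unfold upd at e1 e2
      rw [if_neg hi] at e1 e2
      rw [← e1, ← e2]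

lemma bad_card_pow {e l q : ℕ} (P : ℕ) (S : (Fin (e + 1) → Fin (l + 1)) → ℕ → Fin q) (p : ℕ × ℕ)
    (j : ℕ) (hj : j < e + 1) :
    (bad P S p j).card * (P + 1) ^ j ≤ (bad P S p 0).card := by
  induction j with
  | zero => simp
  | succ j ih =>
    refine le_trans ?_ (ih (by omega))
    rw [pow_succ', ← mul_assoc]
    exact Nat.mul_le_mul_right _ (bad_card P S p j hj)

lemma exists_enc (q P l : ℕ) (hq : 0 < q) (h2 : 2 ^ P ≤ q) (F : Finset (Fin (l + 1)))
    (hF : F.card ≤ P) : ∃ enc : Finset (Fin (l + 1)) → Fin q,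
      ∀ G1 G2, G1 ⊆ F → G2 ⊆ F → enc G1 = enc G2 → G1 = G2 := by
  classical
  obtain ⟨f⟩ : Nonempty ({G // G ∈ F.powerset} ↪ Fin q) := by
    apply Function.Embedding.nonempty_of_card_le
    rw [Fintype.card_coe, Finset.card_powerset, Fintype.card_fin]
    exact (Nat.pow_le_pow_right (by norm_num) hF).trans h2
  refine ⟨fun G => if h : G ∈ F.powerset then f ⟨G, h⟩ else ⟨0, hq⟩, ?_⟩
  intro G1 G2 h1 h2 h
  rw [← Finset.mem_powerset] at h1 h2
  simp only [dif_pos h1, dif_pos h2] at h
  have := f.injective h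
  simpa using this

/-- the levels of the pairs of a box -/
noncomputable def tau {e : ℕ} (l : ℕ) (E : Fin (e + 1) → ℕ × ℕ) : Fin (e + 1) → Fin (l + 1) :=
  fun i => ⟨min (lev (E i).1 (E i).2) l, by omega⟩

/-- the strategy for the grid -/
theorem grid (e P l q : ℕ) (hq : q.Prime) (h2 : 2 ^ P ≤ q) (hK : (l + 1) ^ (e + 1) ≤ q)
    (hl : 2 ^ l ≤ q ^ ((P + 1) ^ e)) :
    ∃ c : Fin (e + 1) → (Fin (e + 1) → ℕ × ℕ) → ℕ → Fin q,
      ∀ E : Fin (e + 1) → ℕ × ℕ,
        (∀ i, (E i).1 < 2 ^ l ∧ (E i).2 < 2 ^ l ∧ (E i).1 ≠ (E i).2) →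
        ∃ j, c j (Function.update E j (0, 0)) (E j).1 ≠ c j (Function.update E j (0, 0)) (E j).2 := by
  classical
  obtain ⟨S, hS⟩ := hash q ((P + 1) ^ e) hq (by positivity) (Fin (e + 1) → Fin (l + 1)) (by
    rw [Fintype.card_fun, Fintype.card_fin, Fintype.card_fin]; exact hK)
  have henc : ∀ F : Finset (Fin (l + 1)), ∃ enc : Finset (Fin (l + 1)) → Fin q, F.card ≤ P →
      ∀ G1 G2, G1 ⊆ F → G2 ⊆ F → enc G1 = enc G2 → G1 = G2 := by
    intro F
    by_cases hF : F.card ≤ P
    · obtain ⟨enc, h⟩ := exists_enc q P l hq.pos h2 F hF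
      exact ⟨enc, fun _ => h⟩
    · exact ⟨fun _ => ⟨0, hq.pos⟩, fun h => absurd h hF⟩
  choose enc henc' using henc
  let FF : ℕ → (Fin (e + 1) → ℕ × ℕ) → Finset (Fin (l + 1)) := fun j E =>
    univ.filter (fun x => upd (zer (j + 1) (tau l E)) (j + 1) x ∈ bad P S (E 0) j)
  let c : Fin (e + 1) → (Fin (e + 1) → ℕ × ℕ) → ℕ → Fin q := fun j E v =>
    if (j : ℕ) = 0 then S (zer 0 (tau l E)) v
    else enc (FF ((j : ℕ) - 1) E)
      ((FF ((j : ℕ) - 1) E).filter (fun x => v.testBit ((x : ℕ) - 1) = true))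
  refine ⟨c, ?_⟩
  intro E hE
  by_contra hcon
  push Not at hcon
  have hz : ∀ (j : Fin (e + 1)) (p : ℕ × ℕ),
      zer (j : ℕ) (tau l (Function.update E j p)) = zer (j : ℕ) (tau l E) := by
    intro j p
    funext i
    unfold zer
    by_cases hi : (i : ℕ) ≤ j
    · rw [if_pos hi, if_pos hi]
    · rw [if_neg hi, if_neg hi]
      have : i ≠ j := fun h => hi (by rw [h])
      have h7 : Function.update E j p i = E i := Function.update_of_ne this _ _
      apply Fin.ext
      show min (lev (Function.update E j p i).1 (Function.update E j p i).2) l =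
        min (lev (E i).1 (E i).2) l
      rw [h7]
  have main : ∀ j : ℕ, j < e + 1 → zer j (tau l E) ∈ bad P S (E 0) j := by
    intro j
    induction j with
    | zero =>
      intro hj
      have h := hcon 0
      have h1 : c 0 (Function.update E 0 (0, 0)) (E 0).1 = S (zer 0 (tau l E)) (E 0).1 := by
        have := hz 0 (0, 0)
        simp only [Fin.val_zero] at this
        simp only [c, Fin.val_zero, if_true, this]
      have h2 : c 0 (Function.update E 0 (0, 0)) (E 0).2 = S (zer 0 (tau l E)) (E 0).2 := by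
        have := hz 0 (0, 0)
        simp only [Fin.val_zero] at this
        simp only [c, Fin.val_zero, if_true, this]
      rw [h1, h2] at h
      rw [bad, Finset.mem_filter]
      exact ⟨Finset.mem_univ _, h⟩
    | succ j ih =>
      intro hj
      have hprev := ih (by omega)
      have h := hcon ⟨j + 1, hj⟩
      have hE0 : (Function.update E ⟨j + 1, hj⟩ (0, 0)) 0 = E 0 := by
        rw [Function.update_of_ne]
        intro h0
        have := congrArg Fin.val h0
        simp at this
      have hFF : FF j (Function.update E ⟨j + 1, hj⟩ (0, 0)) = FF j E := by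
        simp only [FF]
        rw [hE0]
        have := hz ⟨j + 1, hj⟩ (0, 0)
        simp only at this
        rw [this]
      have hc : ∀ v, c ⟨j + 1, hj⟩ (Function.update E ⟨j + 1, hj⟩ (0, 0)) v =
          enc (FF j E) ((FF j E).filter (fun x => v.testBit ((x : ℕ) - 1) = true)) := by
        intro v
        simp only [c]
        rw [if_neg (by omega)]
        simp only [Nat.add_sub_cancel]
        rw [hFF]
      rw [hc, hc] at h
      have hmem : tau l E ⟨j + 1, hj⟩ ∈ FF j E := by
        simp only [FF, Finset.mem_filter]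
        refine ⟨Finset.mem_univ _, ?_⟩
        have : upd (zer (j + 1) (tau l E)) (j + 1) (tau l E ⟨j + 1, hj⟩) = zer j (tau l E) := by
          funext i
          unfold upd zer
          by_cases h1 : (i : ℕ) = j + 1
          · rw [if_pos h1, if_neg (by omega)]
            congr 1
            exact Fin.ext h1.symm
          · rw [if_neg h1]
            by_cases h2 : (i : ℕ) ≤ j
            · rw [if_pos h2, if_pos (by omega)]
            · rw [if_neg h2, if_neg (by omega)]
        rw [this]
        exact hprev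
      rw [bad, Finset.mem_filter]
      refine ⟨Finset.mem_univ _, ?_, ?_⟩
      · intro i hi
        unfold zer
        rw [if_pos (by omega)]
      · by_contra hle
        push Not at hle
        have h3 := henc' (FF j E) hle _ _ (Finset.filter_subset _ _) (Finset.filter_subset _ _) h
        obtain ⟨ha, hb, hab⟩ := hE ⟨j + 1, hj⟩
        have hbit := lev_bit hab
        have hlev : ((tau l E ⟨j + 1, hj⟩ : Fin (l + 1)) : ℕ) =
            lev (E ⟨j + 1, hj⟩).1 (E ⟨j + 1, hj⟩).2 := by
          have := lev_le_of_lt ha hb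
          unfold tau
          simp only
          omega
        apply hbit
        rw [← hlev]
        apply Bool.eq_iff_iff.2
        constructor
        · intro h5
          have h6 : tau l E ⟨j + 1, hj⟩ ∈ (FF j E).filter
              (fun x : Fin (l + 1) => (E ⟨j + 1, hj⟩).1.testBit ((x : ℕ) - 1) = true) :=
            Finset.mem_filter.2 ⟨hmem, h5⟩
          rw [h3] at h6
          exact (Finset.mem_filter.1 h6).2
        · intro h5
          have h6 : tau l E ⟨j + 1, hj⟩ ∈ (FF j E).filter
              (fun x : Fin (l + 1) => (E ⟨j + 1, hj⟩).2.testBit ((x : ℕ) - 1) = true) :=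
            Finset.mem_filter.2 ⟨hmem, h5⟩
          rw [← h3] at h6
          exact (Finset.mem_filter.1 h6).2
  have hfin := main e (by omega)
  have h1 : 1 ≤ (bad P S (E 0) e).card := Finset.card_pos.2 ⟨_, hfin⟩
  have h3 := bad_card_pow P S (E 0) e (by omega)
  obtain ⟨ha, hb, hab⟩ := hE 0
  have h4 : (bad P S (E 0) 0).card ≤ (P + 1) ^ e - 1 := by
    rw [bad]
    exact hS _ _ (lt_of_lt_of_le ha hl) (lt_of_lt_of_le hb hl) hab
  have h5 : 0 < (P + 1) ^ e := by positivity
  have h6 : 1 * (P + 1) ^ e ≤ (bad P S (E 0) e).card * (P + 1) ^ e := Nat.mul_le_mul_right _ h1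
  omega

end Pool.Agent.Helper288.PQ
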