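import Mathlib
import Pool.Agent.Helper288.PQ.Grid

set_option autoImplicit false

namespace Pool.Agent.Helper288.PQ

open Finset

variable {n : ℕ}

/-- the `k`-th smallest element -/
def sq (T : Finset (Fin n)) (k : ℕ) : ℕ :=
  if h : k < T.card then ((T.orderEmbOfFin rfl ⟨k, h⟩ : Fin n) : ℕ) else 0

lemma sq_lt (T : Finset (Fin n)) (k l : ℕ) (hn : n ≤ 2 ^ l) : sq T k < 2 ^ l := by
  unfold sq
  split_ifs with h
  · exact lt_of_lt_of_le (Fin.is_lt _) hn
  · positivity

lemma sq_mono (T : Finset (Fin n)) (k k' : ℕ) (h : k < k') (h' : k' < T.card) :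
    sq T k < sq T k' := by
  unfold sq
  rw [dif_pos (h.trans h'), dif_pos h']
  have : (⟨k, h.trans h'⟩ : Fin T.card) < ⟨k', h'⟩ := by
    rw [Fin.lt_def]; exact h
  exact (T.orderEmbOfFin rfl).strictMono this

/-- delete the `i`-th element -/
def del (S : Finset (Fin n)) (i : ℕ) : Finset (Fin n) :=
  if h : i < S.card then S.erase (S.orderEmbOfFin rfl ⟨i, h⟩) else ∅

lemma del_card (S : Finset (Fin n)) (i : ℕ) (hi : i < S.card) : (del S i).card = S.card - 1 := by
  unfold del
  rw [dif_pos hi, Finset.card_erase_of_mem (Finset.orderEmbOfFin_mem _ _ _)]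

lemma del_subset (S : Finset (Fin n)) (i : ℕ) : del S i ⊆ S := by
  unfold del
  split_ifs
  · exact Finset.erase_subset _ _
  · exact Finset.empty_subset _

lemma sq_del (S : Finset (Fin n)) (i : ℕ) (hi : i < S.card) (k : ℕ) (hk : k + 1 < S.card) :
    sq (del S i) k = if k < i then sq S k else sq S (k + 1) := by
  have hc := del_card S i hi
  have hlt : ∀ k : Fin (del S i).card, (if (k : ℕ) < i then (k : ℕ) else k + 1) < S.card := by
    intro k
    have := k.isLt
    split_ifs <;> omega
  let f : Fin (del S i).card → Fin n := fun k =>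
    S.orderEmbOfFin rfl ⟨if (k : ℕ) < i then (k : ℕ) else k + 1, hlt k⟩
  have hf1 : ∀ k, f k ∈ del S i := by
    intro k
    unfold del
    rw [dif_pos hi, Finset.mem_erase]
    refine ⟨?_, Finset.orderEmbOfFin_mem _ _ _⟩
    intro hcon
    have := (S.orderEmbOfFin rfl).injective hcon
    rw [Fin.mk.injEq] at this
    split_ifs at this <;> omega
  have hf2 : StrictMono f := by
    intro a b hab
    apply (S.orderEmbOfFin rfl).strictMono
    rw [Fin.lt_def] at hab ⊢
    simp only
    split_ifs <;> omega
  have huniq := Finset.orderEmbOfFin_unique (s := del S i) rfl hf1 hf2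
  have hk' : k < (del S i).card := by omega
  have h1 : sq (del S i) k = ((f ⟨k, hk'⟩ : Fin n) : ℕ) := by
    unfold sq
    rw [dif_pos hk', huniq]
  have hS' : ∀ m (hm : m < S.card), sq S m = ((S.orderEmbOfFin rfl ⟨m, hm⟩ : Fin n) : ℕ) := by
    intro m hm
    unfold sq
    rw [dif_pos hm]
  rw [h1]
  by_cases hki : k < i
  · have e1 : (if k < i then sq S k else sq S (k + 1)) = sq S k := if_pos hki
    rw [e1, hS' k (by omega)]
    simp only [f]
    congr 2
    exact Fin.ext (by simp [hki])
  · have e1 : (if k < i then sq S k else sq S (k + 1)) = sq S (k + 1) := if_neg hki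
    rw [e1, hS' (k + 1) (by omega)]
    simp only [f]
    congr 2
    exact Fin.ext (by simp [hki])

/-- the boxes read off from a sequence -/
def box (e : ℕ) (s : ℕ → ℕ) (j : Fin (e + 1)) : Fin (e + 1) → ℕ × ℕ := fun i =>
  if (i : ℕ) < j then (s (2 * i), s (2 * i + 1))
  else if i = j then (0, 0) else (s (2 * i - 1), s (2 * i))

/-- the colouring -/
noncomputable def col (e l q : ℕ) (c : Fin (e + 1) → (Fin (e + 1) → ℕ × ℕ) → ℕ → Fin q)
    (T : Finset (Fin n)) : (Fin (2 * e) → Fin (l + 1)) × (Fin (e + 1) → Fin q) :=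
  (fun k => ⟨min (lev (sq T k) (sq T (k + 1))) l, by omega⟩,
    fun j => c j (box e (sq T) j) (sq T (2 * j)))

/-- the deleted place of the sequence of levels -/
noncomputable def rho (e : ℕ) (x : ℕ → ℕ) (i : ℕ) : ℕ :=
  if i = 0 then 0 else if i = 2 * e + 1 then 2 * e
  else if lev (x (i - 1)) (x i) < lev (x i) (x (i + 1)) then i - 1 else i

lemma levels_del (e l : ℕ) (hn : n ≤ 2 ^ l) (S : Finset (Fin n)) (hS : S.card = 2 * e + 2)
    (i : ℕ) (hi : i < 2 * e + 2) (k : ℕ) (hk : k < 2 * e) :
    lev (sq (del S i) k) (sq (del S i) (k + 1)) =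
      if k < rho e (sq S) i then lev (sq S k) (sq S (k + 1))
      else lev (sq S (k + 1)) (sq S (k + 2)) := by
  rw [sq_del S i (by omega) k (by omega), sq_del S i (by omega) (k + 1) (by omega)]
  have hmono : ∀ a b, a < b → b < 2 * e + 2 → sq S a < sq S b := fun a b h h' =>
    sq_mono S a b h (by omega)
  rcases Nat.lt_trichotomy (k + 1) i with h | h | h
  · have h1 : k < rho e (sq S) i := by
      unfold rho
      split_ifs <;> omega
    rw [if_pos h1, if_pos (by omega), if_pos h]
  · have h2 : lev (sq S k) (sq S (k + 2)) =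
        max (lev (sq S k) (sq S (k + 1))) (lev (sq S (k + 1)) (sq S (k + 2))) :=
      lev_max (hmono _ _ (by omega) (by omega)).le (hmono _ _ (by omega) (by omega)).le
    have e1 : (if k < i then sq S k else sq S (k + 1)) = sq S k := if_pos (by omega)
    have e2 : (if k + 1 < i then sq S (k + 1) else sq S (k + 1 + 1)) = sq S (k + 2) :=
      if_neg (by omega)
    rw [e1, e2, h2]
    subst h
    have e3 : rho e (sq S) (k + 1) = if lev (sq S k) (sq S (k + 1)) <
        lev (sq S (k + 1)) (sq S (k + 2)) then k else k + 1 := by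
      unfold rho
      rw [if_neg (by omega), if_neg (by omega)]
      simp only [Nat.add_sub_cancel]
    rw [e3]
    by_cases h3 : lev (sq S k) (sq S (k + 1)) < lev (sq S (k + 1)) (sq S (k + 2))
    · rw [if_pos h3, if_neg (by omega)]
      exact max_eq_right h3.le
    · rw [if_neg h3, if_pos (by omega)]
      exact max_eq_left (by omega)
  · have h1 : ¬ k < rho e (sq S) i := by
      unfold rho
      split_ifs <;> omega
    rw [if_neg h1, if_neg (by omega), if_neg (by omega)]

lemma rho_cases (e : ℕ) (x : ℕ → ℕ) (i : ℕ) (hi : i < 2 * e + 2) :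
    (rho e x i = i ∧ i < 2 * e + 1) ∨ (rho e x i + 1 = i) := by
  unfold rho
  split_ifs <;> omega

/-- the colour determines the deleted place -/
lemma rho_of_col (e l q : ℕ) (c : Fin (e + 1) → (Fin (e + 1) → ℕ × ℕ) → ℕ → Fin q)
    (hn : n ≤ 2 ^ l) (S : Finset (Fin n)) (hS : S.card = 2 * e + 2)
    (i i' : ℕ) (hi : i < 2 * e + 2) (hi' : i' < 2 * e + 2)
    (h : col e l q c (del S i) = col e l q c (del S i')) :
    rho e (sq S) i = rho e (sq S) i' := by
  have key : ∀ i i' : ℕ, i < 2 * e + 2 → i' < 2 * e + 2 →
      col e l q c (del S i) = col e l q c (del S i') → ¬ rho e (sq S) i < rho e (sq S) i' := by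
    intro i i' hi hi' h hlt
    have hb : rho e (sq S) i' ≤ 2 * e := by
      rcases rho_cases e (sq S) i' hi' with h1 | h1 <;> omega
    set p := rho e (sq S) i with hp
    have hp' : p < 2 * e := by omega
    have h1 := congrFun (congrArg Prod.fst h) ⟨p, hp'⟩
    unfold col at h1
    simp only [Fin.mk.injEq] at h1
    rw [levels_del e l hn S hS i hi p hp', levels_del e l hn S hS i' hi' p hp',
      if_neg (by omega), if_pos hlt] at h1
    have h2 := lev_le_of_lt (sq_lt S p l hn) (sq_lt S (p + 1) l hn)
    have h3 := lev_le_of_lt (sq_lt S (p + 1) l hn) (sq_lt S (p + 2) l hn)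
    have h4 := lev_ne (sq_mono S p (p + 1) (by omega) (by omega))
      (sq_mono S (p + 1) (p + 2) (by omega) (by omega))
    omega
  have h1 := key i i' hi hi' h
  have h2 := key i' i hi' hi h.symm
  omega

lemma box_even (e : ℕ) (S : Finset (Fin n)) (hS : S.card = 2 * e + 2) (j : Fin (e + 1)) :
    box e (sq (del S (2 * j))) j =
      Function.update (fun i : Fin (e + 1) => (sq S (2 * i), sq S (2 * i + 1))) j (0, 0) := by
  funext i
  have hj := j.isLt
  have hi := i.isLt
  unfold box
  by_cases h1 : (i : ℕ) < j
  · have hne : i ≠ j := fun h => by rw [h] at h1; omega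
    rw [if_pos h1, Function.update_of_ne hne, sq_del S _ (by omega) _ (by omega),
      sq_del S _ (by omega) _ (by omega), if_pos (by omega), if_pos (by omega)]
  · rw [if_neg h1]
    by_cases h2 : i = j
    · subst h2
      rw [if_pos rfl, Function.update_self]
    · have h3 : (j : ℕ) < i := by
        have : (i : ℕ) ≠ j := fun h => h2 (Fin.ext h)
        omega
      rw [if_neg h2, Function.update_of_ne h2, sq_del S _ (by omega) _ (by omega),
        sq_del S _ (by omega) _ (by omega), if_neg (by omega), if_neg (by omega)]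
      congr 2
      omega

lemma box_odd (e : ℕ) (S : Finset (Fin n)) (hS : S.card = 2 * e + 2) (j : Fin (e + 1)) :
    box e (sq (del S (2 * j + 1))) j =
      Function.update (fun i : Fin (e + 1) => (sq S (2 * i), sq S (2 * i + 1))) j (0, 0) := by
  funext i
  have hj := j.isLt
  have hi := i.isLt
  unfold box
  by_cases h1 : (i : ℕ) < j
  · have hne : i ≠ j := fun h => by rw [h] at h1; omega
    rw [if_pos h1, Function.update_of_ne hne, sq_del S _ (by omega) _ (by omega),
      sq_del S _ (by omega) _ (by omega), if_pos (by omega), if_pos (by omega)]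
  · rw [if_neg h1]
    by_cases h2 : i = j
    · subst h2
      rw [if_pos rfl, Function.update_self]
    · have h3 : (j : ℕ) < i := by
        have : (i : ℕ) ≠ j := fun h => h2 (Fin.ext h)
        omega
      rw [if_neg h2, Function.update_of_ne h2, sq_del S _ (by omega) _ (by omega),
        sq_del S _ (by omega) _ (by omega), if_neg (by omega), if_neg (by omega)]
      congr 2
      omega

/-- the colouring theorem -/
theorem colouring (n e P l q : ℕ) (hn : n ≤ 2 ^ l) (hq : q.Prime) (h2 : 2 ^ P ≤ q)
    (hK : (l + 1) ^ (e + 1) ≤ q) (hl : 2 ^ l ≤ q ^ ((P + 1) ^ e)) :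
    ∃ χ : Finset (Fin n) → (Fin (2 * e) → Fin (l + 1)) × (Fin (e + 1) → Fin q),
      ∀ S : Finset (Fin n), S.card = 2 * e + 2 →
        e + 2 ≤ ((S.powersetCard (2 * e + 1)).image χ).card := by
  classical
  obtain ⟨c, hc⟩ := grid e P l q hq h2 hK hl
  refine ⟨col e l q c, ?_⟩
  intro S hS
  by_contra hcon
  push Not at hcon
  set Im := (S.powersetCard (2 * e + 1)).image (col e l q c) with hIm
  have hmem : ∀ i, i < 2 * e + 2 → col e l q c (del S i) ∈ Im := by
    intro i hi
    rw [hIm, Finset.mem_image]
    refine ⟨del S i, ?_, rfl⟩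
    rw [Finset.mem_powersetCard]
    refine ⟨del_subset S i, ?_⟩
    rw [del_card S i (by omega)]
    omega
  have hR := fun i i' hi hi' h => rho_of_col e l q c hn S hS i i' hi hi' h
  -- even and odd deletions
  have hA : ((Finset.range (e + 1)).image (fun j => col e l q c (del S (2 * j)))).card = e + 1 := by
    rw [Finset.card_image_of_injOn, Finset.card_range]
    intro a ha b hb hab
    rw [Finset.mem_coe, Finset.mem_range] at ha hb
    have := hR (2 * a) (2 * b) (by omega) (by omega) hab
    have h1 := rho_cases e (sq S) (2 * a) (by omega)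
    have h2 := rho_cases e (sq S) (2 * b) (by omega)
    omega
  have hB : ((Finset.range (e + 1)).image (fun j => col e l q c (del S (2 * j + 1)))).card =
      e + 1 := by
    rw [Finset.card_image_of_injOn, Finset.card_range]
    intro a ha b hb hab
    rw [Finset.mem_coe, Finset.mem_range] at ha hb
    have := hR (2 * a + 1) (2 * b + 1) (by omega) (by omega) hab
    have h1 := rho_cases e (sq S) (2 * a + 1) (by omega)
    have h2 := rho_cases e (sq S) (2 * b + 1) (by omega)
    omega
  have hAs : (Finset.range (e + 1)).image (fun j => col e l q c (del S (2 * j))) = Im := by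
    apply Finset.eq_of_subset_of_card_le
    · intro y hy
      rw [Finset.mem_image] at hy
      obtain ⟨j, hj, rfl⟩ := hy
      rw [Finset.mem_range] at hj
      exact hmem _ (by omega)
    · omega
  have hBs : (Finset.range (e + 1)).image (fun j => col e l q c (del S (2 * j + 1))) = Im := by
    apply Finset.eq_of_subset_of_card_le
    · intro y hy
      rw [Finset.mem_image] at hy
      obtain ⟨j, hj, rfl⟩ := hy
      rw [Finset.mem_range] at hj
      exact hmem _ (by omega)
    · omega
  have hodd : ∀ j, j < e + 1 → ∃ j', j' < e + 1 ∧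
      col e l q c (del S (2 * j' + 1)) = col e l q c (del S (2 * j)) := by
    intro j hj
    have h1 : col e l q c (del S (2 * j)) ∈
        (Finset.range (e + 1)).image (fun j => col e l q c (del S (2 * j + 1))) := by
      rw [hBs]; exact hmem _ (by omega)
    rw [Finset.mem_image] at h1
    obtain ⟨j', hj', h⟩ := h1
    exact ⟨j', Finset.mem_range.1 hj', h⟩
  have main : ∀ j, j < e + 1 → rho e (sq S) (2 * j) = 2 * j ∧
      rho e (sq S) (2 * j + 1) = 2 * j ∧
      col e l q c (del S (2 * j + 1)) = col e l q c (del S (2 * j)) := by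
    intro j
    induction j with
    | zero =>
      intro hj
      obtain ⟨j', hj', h⟩ := hodd 0 hj
      have h0 : rho e (sq S) (2 * 0) = 0 := by simp [rho]
      have h1 := hR _ _ (by omega) (by omega) h
      have h2 := rho_cases e (sq S) (2 * j' + 1) (by omega)
      have hj0 : j' = 0 := by omega
      subst hj0
      exact ⟨by omega, by omega, h⟩
    | succ j ih =>
      intro hj
      obtain ⟨i1, i2, i3⟩ := ih (by omega)
      obtain ⟨j', hj', h⟩ := hodd (j + 1) hj
      have h1 := hR _ _ (by omega) (by omega) h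
      have h2 := rho_cases e (sq S) (2 * j' + 1) (by omega)
      have h3 := rho_cases e (sq S) (2 * (j + 1)) (by omega)
      have hj0 : j' = j + 1 := by
        by_contra hne
        have : j' = j := by omega
        subst this
        omega
      subst hj0
      exact ⟨by omega, by omega, h⟩
  obtain ⟨j, hj⟩ := hc (fun i => (sq S (2 * i), sq S (2 * i + 1))) (by
    intro i
    have := i.isLt
    refine ⟨sq_lt S _ l hn, sq_lt S _ l hn, ?_⟩
    exact (sq_mono S _ _ (by omega) (by omega)).ne)
  apply hj
  have hjl := j.isLt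
  have h1 := (main j hjl).2.2
  have h2 := congrFun (congrArg Prod.snd h1) j
  unfold col at h2
  simp only at h2
  rw [box_even e S hS j, box_odd e S hS j, sq_del S _ (by omega) _ (by omega),
    sq_del S _ (by omega) _ (by omega), if_pos (by omega), if_neg (by omega)] at h2
  exact h2

end Pool.Agent.Helper288.PQ
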